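import Pool.Agent.H.MP_c74059_gt.A

set_option autoImplicit false

namespace Pool.Agent.H.MP_b6a3e4_an

open Filter Topology Finset UniformSpace MeasureTheory

theorem roots {V : Type} [AddCommGroup V] [Module ℂ V] (S : Module.End ℂ V) {l : ℕ} (hl : 0 < l)
    {μ : ℝ} (hμ : 0 < μ) {v : V} (h : (S ^ l) v = (μ : ℂ) ^ l • v) :
    v ∈ Submodule.span ℂ {x | ∃ z : ℂ, ‖z‖ = μ ∧ S x = z • x} := by
  have hζ := Complex.isPrimitiveRoot_exp l hl.ne'
  generalize Complex.exp (2 * Real.pi * Complex.I / l) = ζ at hζ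
  have n1 : ‖ζ‖ = 1 := hζ.norm'_eq_one hl.ne'
  have m0 : (μ : ℂ) ≠ 0 := by exact_mod_cast hμ.ne'
  have z0 : ζ ≠ 0 := hζ.ne_zero hl.ne'
  have h1 : ∀ i : ℕ, ∑ k ∈ range l, ((ζ ^ i / μ) ^ k) • (S ^ k) v ∈
      Submodule.span ℂ {x | ∃ z : ℂ, ‖z‖ = μ ∧ S x = z • x} := fun i => by
    refine Submodule.subset_span ⟨μ / ζ ^ i, by simp [n1, hμ.le], ?_⟩
    have e := sum_range_succ' (fun k => ((ζ ^ i / μ) ^ k) • (S ^ k) v) l
    rw [sum_range_succ, h, smul_smul, ← mul_pow, div_mul_cancel₀ _ m0, ← pow_mul, mul_comm i,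
      pow_mul, hζ.pow_eq_one, one_pow, pow_zero, pow_zero, Module.End.one_apply,
      add_left_inj] at e
    conv_rhs => rw [e]
    rw [map_sum, smul_sum]
    refine sum_congr rfl fun k _ => ?_
    rw [map_smul, smul_smul, pow_succ' S, Module.End.mul_apply]
    congr 1
    rw [pow_succ']
    field_simp
  have h2 := Submodule.sum_mem _ fun i (_ : i ∈ range l) => h1 i
  rw [sum_comm, sum_eq_single 0 (fun k hk k0 => by
    rw [← sum_smul]
    simp only [div_pow, ← pow_mul, fun i => mul_comm i k, ← sum_div]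
    simp only [pow_mul]
    rw [geom_sum_eq (hζ.pow_ne_one_of_pos_of_lt k0 (mem_range.1 hk)), ← pow_mul, mul_comm, pow_mul,
      hζ.pow_eq_one]
    simp) (by simp [hl.ne'])] at h2
  have := Submodule.smul_mem _ (l : ℂ)⁻¹ h2
  simpa [← Nat.cast_smul_eq_nsmul ℂ, smul_smul, hl.ne'] using this

theorem count {A B : ℕ → ℂ} {l D : ℕ} (hl : 2 ≤ l) {μ W : ℝ} (m1 : 1 ≤ μ) (m2 : μ ≤ 8)
    (hA : ∀ s, A (s + l) = μ ^ l * A s) (hB : ∀ s, B (s + l) = (2 * μ) ^ l * B s) (W0 : 0 < W)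
    (hD : W ≤ 2 ^ D) (H : Finset ℕ) (h : ∀ n ∈ H, ∃ R : ℝ, 0 < R ∧
      (∀ j < l, ‖B (n + j)‖ ≤ 64 ^ j * (2 * R)) ∧ ∃ j < l,
        64 ^ j * (2 / W * 2 ^ (l - 1 - j) * R) ≤ ‖B (n + j)‖ ∧ W * ‖A (n + j) - B (n + j)‖ ≤ 64 ^ j * R) :
    H.card ≤ (2 * D + 1) ^ 2 := by
  have pA : ∀ k s, A (s + k * l) = (μ ^ l) ^ k * A s := fun k s => by
    induction k with
    | zero => simp
    | succ k ih => rw [add_mul, one_mul, ← add_assoc, hA, ih]; ring
  have pB : ∀ k s, B (s + k * l) = ((2 * μ) ^ l) ^ k * B s := fun k s => by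
    induction k with
    | zero => simp
    | succ k ih => rw [add_mul, one_mul, ← add_assoc, hB, ih]; ring
  have l0 : 0 < l := by omega
  have p2 : 0 < 2 * μ := by linarith
  have per : ∀ s, ‖B s‖ / (2 * μ) ^ s = ‖B (s % l)‖ / (2 * μ) ^ (s % l) := fun s => by
    conv_lhs => rw [← Nat.mod_add_div' s l, pB, norm_mul, pow_add, norm_pow, norm_pow,
      show (2 * μ : ℂ) = ((2 * μ : ℝ) : ℂ) by simp, Complex.norm_real, Real.norm_of_nonneg p2.le,
      ← pow_mul, mul_comm l]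
    field_simp
  obtain ⟨s, hs, hm⟩ := exists_max_image (range l) (fun s => ‖B s‖ / (2 * μ) ^ s) ⟨0, by simpa⟩
  have key : ∀ n ∈ H, ∃ j j', j < l ∧ j' < l ∧ l ≤ j + D + 1 ∧ l ≤ j' + 2 * D + 1 ∧
      (n + j') % l = s ∧ B (n + j) ≠ 0 ∧ ‖A (n + j) - B (n + j)‖ ≤ ‖B (n + j)‖ / 2 := fun n hn => by
    obtain ⟨R, R0, h1, j, hj, h2, h3⟩ := h n hn
    have h4 : 64 ^ j * (2 / W * R) ≤ ‖B (n + j)‖ := le_trans (by
      gcongr; exact le_mul_of_one_le_right (by positivity) (one_le_pow₀ one_le_two)) h2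
    have h5 := h2.trans (h1 j hj)
    have h6 : (2 : ℝ) ^ (l - 1 - j) ≤ 2 ^ D := by
      refine le_trans ?_ hD
      have := le_of_mul_le_mul_left h5 (by positivity)
      have := le_of_mul_le_mul_right this R0
      rw [div_mul_eq_mul_div, div_le_iff₀ W0] at this
      linarith
    rw [pow_le_pow_iff_right₀ one_lt_two] at h6
    have e1 : (n + (s + (l - n % l)) % l) % l = s := by
      have := Nat.mod_lt n l0
      rw [Nat.add_mod_mod, show n + (s + (l - n % l)) = s + l * (n / l + 1) by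
        have := Nat.mod_add_div n l; rw [mul_add]; omega, Nat.add_mul_mod_self_left,
        Nat.mod_eq_of_lt (mem_range.1 hs)]
    have e2 := Nat.mod_lt (s + (l - n % l)) l0
    generalize (s + (l - n % l)) % l = j' at e1 e2
    have h7 := hm _ (mem_range.2 (Nat.mod_lt (n + j) l0))
    rw [← per, ← e1, ← per, div_le_div_iff₀ (by positivity) (by positivity)] at h7
    refine ⟨j, j', hj, e2, by omega, ?_, e1, fun c => ?_, ?_⟩
    · by_contra c
      obtain ⟨d, rfl⟩ : ∃ d, j = j' + (D + 1 + d) := ⟨j - j' - (D + 1), by omega⟩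
      have h8 := (mul_le_mul_of_nonneg_right h4 (by positivity)).trans
        (h7.trans (mul_le_mul_of_nonneg_right (h1 j' e2) (by positivity)))
      rw [← add_assoc n, pow_add (2 * μ) (n + j'), pow_add 64 j'] at h8
      have h9 : (64 : ℝ) ^ (D + 1 + d) ≤ W * (2 * μ) ^ (D + 1 + d) := by
        have q : (0 : ℝ) < 64 ^ j' * (2 / W * R) * (2 * μ) ^ (n + j') := by positivity
        refine le_of_mul_le_mul_left (le_trans (le_of_eq (by ring)) (h8.trans_eq ?_)) q
        field_simp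
      have h10 : W * (2 * μ) ^ (D + 1 + d) ≤ 2 ^ (D + 1 + d) * 16 ^ (D + 1 + d) := by
        gcongr
        · exact hD.trans (pow_le_pow_right₀ one_le_two (by omega))
        · linarith
      rw [← mul_pow] at h10
      exact absurd (h9.trans h10) (not_le.2 (pow_lt_pow_left₀ (by norm_num) (by norm_num) (by omega)))
    · rw [c, norm_zero] at h4
      exact absurd h4 (not_le.2 (by positivity))
    · refine le_of_mul_le_mul_left (h3.trans ?_) W0
      rw [← mul_le_mul_iff_right₀ (show 0 < W / 2 by positivity)] at h4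
      refine le_trans (le_of_eq ?_) (h4.trans_eq (by ring))
      field_simp
  choose! j j' k1 k2 k3 k4 k5 k6 k7 using key
  have inj : ∀ n ∈ H, ∀ m ∈ H, n < m → j n = j m → j' n = j' m → False := fun n hn m hm c e e' => by
    have h1 : n + j' n ≡ m + j' n [MOD l] := by
      rw [Nat.ModEq, k5 n hn, e', k5 m hm]
    obtain ⟨k, hk⟩ := (Nat.modEq_iff_dvd' c.le).1 (Nat.ModEq.add_right_cancel' _ h1)
    have e3 : m + j m = n + j n + k * l := by rw [mul_comm]; omega
    have h2 := k7 m hm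
    have h3 := k7 n hn
    have h4 := norm_pos_iff.2 (k6 n hn)
    rw [e3, pA, pB, mul_pow, mul_pow] at h2
    have k0 : 0 < k := Nat.pos_of_ne_zero (by rintro rfl; omega)
    have h5 : (4 : ℝ) ≤ (2 ^ l) ^ k := by
      rw [← pow_mul]
      exact le_trans (by norm_num) (pow_le_pow_right₀ one_le_two (hl.trans (Nat.le_mul_of_pos_right l k0)))
    have m0 : ((μ : ℂ) ^ l) ^ k ≠ 0 := by
      have : (μ : ℂ) ≠ 0 := by exact_mod_cast (by linarith : μ ≠ 0)
      positivity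
    rw [mul_comm (_ ^ k) (_ ^ k), mul_assoc, ← mul_sub, norm_mul, norm_mul, mul_div_assoc,
      mul_le_mul_iff_right₀ (norm_pos_iff.2 m0)] at h2
    have h6 := norm_sub_norm_le (((2 : ℂ) ^ l) ^ k * B (n + j n)) (A (n + j n))
    rw [norm_sub_rev] at h6
    have h7 := norm_sub_norm_le (A (n + j n)) (B (n + j n))
    simp only [norm_mul, norm_pow, Complex.norm_two] at h2 h6
    nlinarith
  rw [sq, ← card_range (2 * D + 1), ← card_product]
  refine card_le_card_of_injOn (fun n => (l - 1 - j n, l - 1 - j' n)) (fun n hn => ?_)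
    fun n hn m hm e => ?_
  · have := k3 n hn; have := k4 n hn
    simp only [coe_product, coe_range, Set.mem_prod, Set.mem_Iio]; omega
  · simp only [Prod.mk.injEq] at e
    have := k1 n hn; have := k1 m hm; have := k2 n hn; have := k2 m hm
    rcases lt_trichotomy n m with c | c | c
    exacts [(inj n hn m hm c (by omega) (by omega)).elim, c,
      (inj m hm n hn c (by omega) (by omega)).elim]

theorem nocommon {V X : Type} [SeminormedAddCommGroup V] [NormedSpace ℂ V] [NormedAddCommGroup X]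
    [NormedSpace ℂ X] (ι : V →ₗᵢ[ℂ] X) (hι : DenseRange ι) (S : V →L[ℂ] V) (T : X →L[ℂ] X)
    (hT : ∀ v, T (ι v) = ι (S v)) {e : V} (he : ‖e‖ = 1) {τ : ℕ → ℕ} (hτ : StrictMono τ)
    (h : ∀ (v : V) (N : ℕ) (H : Finset ℕ), 50 * ‖v‖ ≤ 3 ^ τ N → (∀ n ∈ H, τ N ≤ n ∧ n < τ (N + 1) ∧
      ∃ r : ℝ, 3 ≤ r ∧ ‖(S ^ n) v - ((r ^ n : ℝ) : ℂ) • e‖ ≤ r ^ n / 50) → H.card * 2 ^ (N + 5) ≤ τ N)
    (x : X) : ∃ r ∈ Set.Icc (3 : ℝ) 5, ¬ Dense (Set.range fun n : ℕ => (((r⁻¹ : ℝ) : ℂ) • T) ^ n <| x) := by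
  classical
  by_contra! c
  have hTn : ∀ (n : ℕ) v, (T ^ n) (ι v) = ι ((S ^ n) v) := fun n v => by
    induction n with
    | zero => rfl
    | succ n ih => rw [pow_succ', pow_succ', ContinuousLinearMap.mul_apply, ih, hT]; rfl
  let hit : ℕ → Set ℝ := fun n => {r | r ∈ Set.Icc (3 : ℝ) 5 ∧
    ‖(T ^ n) x - ((r ^ n : ℝ) : ℂ) • ι e‖ < r ^ n / 100}
  obtain ⟨N0, hN⟩ := eventually_atTop.1 ((((tendsto_pow_atTop_atTop_of_one_lt
    (show (1 : ℝ) < 3 by norm_num)).comp hτ.tendsto_atTop).eventually_ge_atTop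
      (50 * (‖x‖ + 1))).and (eventually_ge_atTop 1))
  have h1 : ∀ N, N0 ≤ N → ((Ico (τ N) (τ (N + 1))).filter fun n => (hit n).Nonempty).card *
      2 ^ (N + 5) ≤ τ N := fun N hN0 => by
    have t1 : ∀ᶠ y in 𝓝 x, ‖y‖ < ‖x‖ + 1 := continuous_norm.continuousAt.eventually
      (gt_mem_nhds (lt_add_one _))
    have t2 : ∀ᶠ y in 𝓝 x, ∀ n ∈ range (τ (N + 1)), ‖(T ^ n) y - (T ^ n) x‖ < 1 / 100 :=
      (eventually_all_finset _).2 fun n _ =>
        (show ContinuousAt (fun y => ‖(T ^ n) y - (T ^ n) x‖) x by fun_prop).eventually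
          (gt_mem_nhds (by simp))
    obtain ⟨_, ⟨a1, a2⟩, v, rfl⟩ := mem_closure_iff_nhds.1 (hι x) _ (t1.and t2)
    rw [ι.norm_map] at a1
    refine h v N _ (by linarith [show 50 * (‖x‖ + 1) ≤ 3 ^ τ N from (hN N hN0).1]) fun n hn => ?_
    obtain ⟨hn, r, hr, h2⟩ := mem_filter.1 hn
    rw [mem_Ico] at hn
    refine ⟨hn.1, hn.2, r, hr.1, ?_⟩
    have := a2 n (mem_range.2 hn.2)
    rw [← ι.norm_map, map_sub, map_smul, ← hTn]
    linarith [norm_sub_le_norm_sub_add_norm_sub ((T ^ n) (ι v)) ((T ^ n) x)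
      (((r ^ n : ℝ) : ℂ) • ι e), one_le_pow₀ (n := n) (show 1 ≤ r by linarith [hr.1])]
  have h2 : ∀ n : ℕ, 0 < n → volume (hit n) ≤ ENNReal.ofReal (10 / n) := fun n n0 => by
    have nn : ∀ r ∈ hit n, ∀ s ∈ hit n, r ≤ s + 5 / n := fun r hr s hs => by
      have a1 := norm_sub_norm_le ((T ^ n) x) (((s ^ n : ℝ) : ℂ) • ι e)
      have a2 := norm_sub_norm_le (((r ^ n : ℝ) : ℂ) • ι e) ((T ^ n) x)
      have r0 : 0 < r := by linarith [hr.1.1]
      have s0 : 0 < s := by linarith [hs.1.1]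
      rw [norm_sub_rev] at a2
      rw [norm_smul, ι.norm_map, he, mul_one, Complex.norm_real,
        Real.norm_of_nonneg (by positivity)] at a1 a2
      have a3 : r ^ n < 2 * s ^ n := by linarith [hr.2, hs.2, pow_pos s0 n]
      have np : (0 : ℝ) < n := by exact_mod_cast n0
      have a4 := one_add_mul_le_pow (a := (1 / n : ℝ)) (by
        have : (0 : ℝ) ≤ 1 / n := by positivity
        linarith) n
      rw [mul_one_div_cancel np.ne'] at a4
      have a5 : r ^ n < ((1 + 1 / n) * s) ^ n := by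
        rw [mul_pow]; exact a3.trans_le (by gcongr; linarith)
      have a6 := lt_of_pow_lt_pow_left₀ n (by positivity) a5
      have : 1 / n * s ≤ 5 / n := by rw [div_mul_eq_mul_div, one_mul]; gcongr; exact hs.1.2
      linarith
    rcases (hit n).eq_empty_or_nonempty with c | ⟨s, hs⟩
    · simp [c]
    · refine (measure_mono (t := Set.Icc (s - 5 / n) (s + 5 / n)) fun r hr =>
        ⟨by linarith [nn s hs r hr], nn r hr s hs⟩).trans_eq ?_
      rw [Real.volume_Icc]; congr 1; ring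
  have h3 : Set.Icc (3 : ℝ) 5 ⊆ ⋃ N, ⋃ n ∈ (Ico (τ (N0 + N)) (τ (N0 + N + 1))).filter
      fun n => (hit n).Nonempty, hit n := fun r hr => by
    have r0 : 0 < r := by linarith [hr.1]
    have : Nontrivial X := ⟨⟨ι e, 0, fun c => by simp [← ι.norm_map, c] at he⟩⟩
    obtain ⟨_, ⟨⟨n, rfl⟩, a1⟩, a2⟩ := ((c r hr).sdiff_finite ((Set.finite_Iio (τ N0)).image
      fun n : ℕ => (((r⁻¹ : ℝ) : ℂ) • T) ^ n <| x)).exists_mem_open Metric.isOpen_ball
      (Metric.nonempty_ball.2 (show (0 : ℝ) < 1 / 100 by norm_num) : (Metric.ball (ι e) _).Nonempty)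
    have a3 : τ N0 ≤ n := not_lt.1 fun c => a1 ⟨n, c, rfl⟩
    have a4 : r ∈ hit n := ⟨hr, by
      beta_reduce at a2
      rw [mem_ball_iff_norm, smul_pow, ContinuousLinearMap.smul_apply] at a2
      have := mul_lt_mul_of_pos_left a2 (pow_pos r0 n)
      rw [← Real.norm_of_nonneg (pow_pos r0 n).le, ← Complex.norm_real, ← norm_smul, smul_sub,
        smul_smul, ← Complex.ofReal_pow, ← Complex.ofReal_mul, ← mul_pow, mul_inv_cancel₀ r0.ne',
        Complex.norm_real, Real.norm_of_nonneg (pow_pos r0 n).le] at this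
      simpa [div_eq_mul_inv] using this⟩
    have ex : ∃ N, n < τ (N0 + N + 1) := ⟨n, (by omega : n < N0 + n + 1).trans_le (hτ.id_le _)⟩
    refine Set.mem_iUnion.2 ⟨Nat.find ex, Set.mem_iUnion₂.2 ⟨n, mem_filter.2
      ⟨mem_Ico.2 ⟨?_, Nat.find_spec ex⟩, r, a4⟩, a4⟩⟩
    rcases Nat.eq_zero_or_pos (Nat.find ex) with c | c
    · rwa [c]
    · have := Nat.find_min ex (Nat.sub_one_lt c.ne')
      rwa [add_assoc, Nat.sub_add_cancel c, not_lt] at this
  have h4 : ∀ N, volume (⋃ n ∈ (Ico (τ (N0 + N)) (τ (N0 + N + 1))).filter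
      fun n => (hit n).Nonempty, hit n) ≤ ENNReal.ofReal (1 / 2 / 2 ^ N) := fun N => by
    have b1 := h1 (N0 + N) (by omega)
    have b2 : 0 < τ (N0 + N) := lt_of_lt_of_le (hN (N0 + N) (by omega)).2 (hτ.id_le _)
    refine (measure_biUnion_finset_le _ _).trans ((sum_le_card_nsmul _ _
      (ENNReal.ofReal (10 / τ (N0 + N))) fun n hn => ?_).trans ?_)
    · have := (mem_Ico.1 (mem_filter.1 hn).1).1
      exact (h2 n (by omega)).trans (ENNReal.ofReal_le_ofReal (by gcongr))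
    · rw [← ENNReal.ofReal_nsmul, nsmul_eq_mul]
      refine ENNReal.ofReal_le_ofReal ?_
      generalize Finset.card _ = k at b1
      have b3 : (k : ℝ) * 2 ^ (N0 + N + 5) ≤ τ (N0 + N) := by exact_mod_cast b1
      have b4 : (2 : ℝ) ^ (N + 5) ≤ 2 ^ (N0 + N + 5) := pow_le_pow_right₀ one_le_two (by omega)
      rw [← mul_div_assoc, div_le_div_iff₀ (by exact_mod_cast b2) (by positivity)]
      rw [pow_add] at b4
      nlinarith [mul_le_mul_of_nonneg_left b4 (Nat.cast_nonneg (α := ℝ) k),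
        mul_nonneg (Nat.cast_nonneg (α := ℝ) k) (pow_pos two_pos N).le]
  have h5 := (measure_mono h3).trans ((measure_iUnion_le _).trans (ENNReal.tsum_le_tsum h4))
  rw [← ENNReal.ofReal_tsum_of_nonneg (fun _ => by positivity) (summable_geometric_two' 1),
    tsum_geometric_two', Real.volume_Icc, ENNReal.ofReal_le_ofReal_iff zero_le_one] at h5
  norm_num at h5

end Pool.Agent.H.MP_b6a3e4_an
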