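import Pool.Agent.H.MP_b6a3e4_an.A

set_option autoImplicit false

namespace Pool.Agent.H.MP_b6a3e4_an

open Filter Topology Finset

abbrev V : Type := ℕ × ℕ →₀ ℂ

noncomputable def f (a : ℕ × ℕ) : V := Finsupp.single a 1

def low (m : ℕ) : Submodule ℂ V where
  carrier := {v | ∀ a : ℕ × ℕ, m ≤ a.1 → v a = 0}
  add_mem' := fun h1 h2 a h => by simp [h1 a h, h2 a h]
  zero_mem' := fun _ _ => rfl
  smul_mem' := fun c _ h1 a h => by simp [h1 a h]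

theorem low_ex (v : V) : ∃ m, v ∈ low m := ⟨v.support.sup Prod.fst + 1, fun a ha => by
  by_contra c
  have := Finset.le_sup (f := Prod.fst) (Finsupp.mem_support_iff.2 c)
  omega⟩

theorem low_mono {k m : ℕ} (h : k ≤ m) {v : V} (hv : v ∈ low k) : v ∈ low m :=
  fun a ha => hv a (h.trans ha)

theorem f_low {a : ℕ × ℕ} {m : ℕ} (h : a.1 < m) : f a ∈ low m :=
  fun b hb => Finsupp.single_eq_of_ne (by rintro rfl; omega)

theorem expand (v : V) : v = ∑ a ∈ v.support, v a • f a := by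
  simp only [f, Finsupp.smul_single, smul_eq_mul, mul_one]; exact v.sum_single.symm

theorem low_ind {E : Type} [AddCommGroup E] [Module ℂ E] (T : V →ₗ[ℂ] E) (M : Submodule ℂ E) {m : ℕ}
    (h : ∀ a : ℕ × ℕ, a.1 < m → T (f a) ∈ M) {v : V} (hv : v ∈ low m) : T v ∈ M := by
  rw [expand v, map_sum]
  exact M.sum_mem fun a ha => by
    rw [map_smul]
    exact M.smul_mem _ (h a (not_le.1 fun c => Finsupp.mem_support_iff.1 ha (hv a c)))

theorem tri (Ψ : V →ₗ[ℂ] V) (h : ∀ a, Ψ (f a) ∈ low a.1) : Function.Bijective (1 - Ψ : V →ₗ[ℂ] V) ∧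
    ∀ m, ∀ v ∈ low m, ∃ s ∈ low m, s - Ψ s = v := by
  have h1 : ∀ m, ∀ v ∈ low (m + 1), Ψ v ∈ low m := fun m v hv =>
    low_ind Ψ _ (fun a ha => low_mono (by omega) (h a)) hv
  have h0 : ∀ v ∈ low 0, v = 0 := fun v hv => Finsupp.ext fun a => hv a (Nat.zero_le _)
  have h2 : ∀ m, ∀ v ∈ low m, ∃ s ∈ low m, s - Ψ s = v := fun m => by
    induction m with
    | zero => exact fun v hv => ⟨0, zero_mem _, by simp [h0 v hv]⟩
    | succ m ih =>
      intro v hv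
      obtain ⟨s, hs, e⟩ := ih _ (h1 m v hv)
      exact ⟨v + s, add_mem hv (low_mono m.le_succ hs), by rw [map_add, ← e]; abel⟩
  refine ⟨⟨(injective_iff_map_eq_zero _).2 fun v hv => ?_, fun v => ?_⟩, h2⟩
  · obtain ⟨m, hm⟩ := low_ex v
    induction m with
    | zero => exact h0 v hm
    | succ m ih => exact ih (by rw [sub_eq_zero.1 (show v - Ψ v = 0 from hv)]; exact h1 m v hm)
  · obtain ⟨m, hm⟩ := low_ex v
    exact (h2 m v hm).imp fun _ h => h.2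

noncomputable def Fl (m : ℕ) : V →ₗ[ℂ] V where
  toFun := Finsupp.filter fun a => a.1 < m
  map_add' _ _ := Finsupp.filter_add
  map_smul' _ _ := Finsupp.filter_smul

theorem Fl_apply (m : ℕ) (v : V) (a : ℕ × ℕ) : Fl m v a = if a.1 < m then v a else 0 := rfl

theorem Fl_low (m : ℕ) (v : V) : Fl m v ∈ low m := fun a ha => if_neg (not_lt.2 ha)

theorem Fl_id {m : ℕ} {v : V} (h : v ∈ low m) : Fl m v = v := Finsupp.ext fun a => by
  rw [Fl_apply]; split_ifs with c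
  exacts [rfl, (h a (not_lt.1 c)).symm]

theorem Fl_f {m : ℕ} {a : ℕ × ℕ} (h : m ≤ a.1) : Fl m (f a) = 0 := Finsupp.ext fun b => by
  rw [Fl_apply]; split_ifs with c
  exacts [Finsupp.single_eq_of_ne (by rintro rfl; omega), rfl]

noncomputable def W (K : ℕ → ℝ) (i : ℕ) : ℝ := 40 * 2 ^ i * ((i + 1) * K i)

noncomputable def G (K : ℕ → ℝ) (i : ℕ) : ℝ := 1 + W K i + (i + 1) * K i

noncomputable def μ (p : ℕ) : ℝ := (if p % 4 < 2 then 1 else 8) * (if p % 2 = 0 then 1 else 2)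

theorem μ_bd (p : ℕ) : 1 ≤ μ p ∧ μ p ≤ 16 := by unfold μ; split_ifs <;> norm_num

theorem μ_A (i : ℕ) : μ (2 * i) ≤ 8 ∧ μ (2 * i + 1) = 2 * μ (2 * i) := by
  unfold μ; split_ifs <;> first | omega | norm_num

structure Par where
  τ : ℕ → ℕ
  K : ℕ → ℝ
  t : ℕ → ℕ × ℕ
  K1 : ∀ i, 1 ≤ K i
  hK : ∀ i, (t i).1 < 2 * i → 4 ^ (t i).2 * G K ((t i).1 / 2) ≤ K i
  mono : StrictMono τ
  τ0 : ∀ i, 0 < τ i
  τG : ∀ i, 128 * G K i ≤ τ i
  τW : ∀ N, (∑ i ∈ range (N + 1), (2 * ⌈W K i⌉₊ + 1) ^ 2) * 2 ^ (N + 5) ≤ τ N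

namespace Par

variable (Q : Par)

def L (p : ℕ) : ℕ := 5 * Q.τ (p / 2)

theorem L_A (i : ℕ) : Q.L (2 * i) = 5 * Q.τ i := by simp [L]

theorem L_B (i : ℕ) : Q.L (2 * i + 1) = 5 * Q.τ i := by rw [L, show (2 * i + 1) / 2 = i by omega]

theorem L5 (p : ℕ) : 5 ≤ Q.L p := by have := Q.τ0 (p / 2); unfold L; omega

theorem NK (i : ℕ) : 1 ≤ (i + 1) * Q.K i :=
  one_le_mul_of_one_le_of_one_le (by linarith [Nat.cast_nonneg (α := ℝ) i]) (Q.K1 i)

theorem W40 (i : ℕ) : 40 ≤ W Q.K i := by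
  unfold W; nlinarith [Q.NK i, one_le_pow₀ (n := i) (one_le_two (α := ℝ))]

def σ (a : ℕ × ℕ) : ℕ × ℕ :=
  (a.1, if a.2 = 0 then Q.L a.1 - 1 else if a.2 < Q.L a.1 then a.2 - 1 else a.2)

noncomputable def c (p : ℕ) : ℝ := μ p ^ Q.L p / 64 ^ (Q.L p - 1)

noncomputable def w (a : ℕ × ℕ) : ℝ := if a.2 = 0 then Q.c a.1 else if a.2 < Q.L a.1 then 64 else 1

theorem c_bd (p : ℕ) : 0 ≤ Q.c p ∧ Q.c p * 4 ^ (Q.L p - 1) ≤ 16 := by
  have h := μ_bd p
  have : 0 < μ p := by linarith [h.1]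
  refine ⟨by unfold c; positivity, ?_⟩
  obtain ⟨k, hk⟩ : ∃ k, Q.L p = k + 1 := ⟨Q.L p - 1, by have := Q.L5 p; omega⟩
  rw [c, hk, Nat.add_sub_cancel, div_mul_eq_mul_div, div_le_iff₀ (by positivity),
    show (64 : ℝ) = 16 * 4 by norm_num, mul_pow, ← mul_assoc, ← pow_succ']
  gcongr; exact h.2

theorem w_bd (a : ℕ × ℕ) : 0 ≤ Q.w a ∧ Q.w a * 4 ^ (Q.σ a).2 ≤ 16 * 4 ^ a.2 ∧ Q.w a ≤ 64 := by
  obtain ⟨h1, h2⟩ := Q.c_bd a.1
  unfold w σ
  split_ifs with h h'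
  · exact ⟨h1, by simpa [h] using h2, by
      nlinarith [one_le_pow₀ (n := Q.L a.1 - 1) (show (1 : ℝ) ≤ 4 by norm_num)]⟩
  · obtain ⟨k, hk⟩ := Nat.exists_eq_succ_of_ne_zero h
    exact ⟨by norm_num, by rw [hk]; simp [pow_succ]; linarith, le_rfl⟩
  · exact ⟨by norm_num, by dsimp only; linarith [pow_pos (show (0 : ℝ) < 4 by norm_num) a.2],
      by norm_num⟩

theorem σ_inj : Function.Injective Q.σ := fun ⟨p, j⟩ ⟨q, k⟩ h => by
  simp only [σ, Prod.mk.injEq] at h ⊢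
  obtain ⟨rfl, h⟩ := h
  have := Q.L5 p
  split_ifs at h <;> omega

noncomputable def S : Module.End ℂ V :=
  Finsupp.linearCombination ℂ fun a => (Q.w a : ℂ) • f (Q.σ a)

theorem S_f (a : ℕ × ℕ) : Q.S (f a) = (Q.w a : ℂ) • f (Q.σ a) := by simp [S, f]

theorem S_apply (v : V) (a : ℕ × ℕ) : Q.S v (Q.σ a) = Q.w a * v a := by
  induction v using Finsupp.induction_linear with
  | zero => simp
  | add u v hu hv => simp [hu, hv, mul_add]
  | single b x =>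
    simp only [S, f, Finsupp.linearCombination_single, Finsupp.smul_apply, Finsupp.single_apply,
      Q.σ_inj.eq_iff]
    split_ifs with h
    · simp [h, mul_comm]
    · simp

theorem S_low {m : ℕ} (k : ℕ) {v : V} (h : v ∈ low m) : (Q.S ^ k) v ∈ low m := by
  induction k with
  | zero => exact h
  | succ k ih =>
    rw [pow_succ', Module.End.mul_apply]
    exact low_ind _ _ (fun a ha => by rw [S_f]; exact Submodule.smul_mem _ _ (f_low ha)) ih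

noncomputable def y (i : ℕ) : V := if (Q.t i).1 < 2 * i then f (Q.t i) else 0

theorem y_low (i : ℕ) : Q.y i ∈ low (2 * i) := by
  unfold y; split_ifs with h
  exacts [f_low h, zero_mem _]

noncomputable def φ (i k : ℕ) : V := ((i + 1 : ℂ) / 64 ^ k) • (Q.S ^ k) (Q.y i)

theorem φ_low (i k : ℕ) : Q.φ i k ∈ low (2 * i) := Submodule.smul_mem _ _ (Q.S_low k (Q.y_low i))

noncomputable def Ψ : V →ₗ[ℂ] V := Finsupp.linearCombination ℂ fun a =>
  if a.1 % 2 = 1 ∧ a.2 < Q.L a.1 then Q.φ (a.1 / 2) (Q.L a.1 - 1 - a.2) - f (a.1 - 1, a.2) else 0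

theorem Ψ_B {i j : ℕ} (h : j < 5 * Q.τ i) :
    Q.Ψ (f (2 * i + 1, j)) = Q.φ i (5 * Q.τ i - 1 - j) - f (2 * i, j) := by
  simp [Ψ, f, L_B, h, show (2 * i + 1) / 2 = i by omega]

theorem cases (a : ℕ × ℕ) : (Q.Ψ (f a) = 0 ∧ Q.Ψ (f (Q.σ a)) = 0 ∧ ∀ i, a.1 = 2 * i + 1 → 5 * Q.τ i ≤ a.2)
    ∨ ∃ i j, j < 5 * Q.τ i ∧ a = (2 * i + 1, j) := by
  obtain ⟨p, j⟩ := a
  by_cases h : p % 2 = 1 ∧ j < Q.L p
  · obtain ⟨i, rfl⟩ : ∃ i, p = 2 * i + 1 := ⟨p / 2, by omega⟩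
    exact Or.inr ⟨i, j, Q.L_B i ▸ h.2, rfl⟩
  · have := Q.L5 p
    refine Or.inl ⟨by simp [Ψ, f, h], ?_, ?_⟩
    · simp only [Ψ, f, Finsupp.linearCombination_single, one_smul, σ]
      exact if_neg (by split_ifs <;> omega)
    · rintro i rfl
      rw [L_B] at h; omega

theorem Ψ_low (a : ℕ × ℕ) : Q.Ψ (f a) ∈ low a.1 := by
  rcases Q.cases a with h | ⟨i, j, h, rfl⟩
  · rw [h.1]; exact zero_mem _
  · rw [Q.Ψ_B h]
    exact sub_mem (low_mono (by simp) (Q.φ_low _ _)) (f_low (by simp))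

noncomputable def U : V ≃ₗ[ℂ] V := LinearEquiv.ofBijective _ (tri Q.Ψ Q.Ψ_low).1

theorem U_apply (s : V) : Q.U s = s - Q.Ψ s := rfl

theorem U_low {m : ℕ} {s : V} (h : s ∈ low m) : Q.U s ∈ low m :=
  sub_mem h (low_ind _ _ (fun a ha => low_mono ha.le (Q.Ψ_low a)) h)

theorem Us_low {m : ℕ} {v : V} (h : v ∈ low m) : Q.U.symm v ∈ low m := by
  obtain ⟨s, hs, rfl⟩ := (tri Q.Ψ Q.Ψ_low).2 m v h
  rwa [← U_apply, LinearEquiv.symm_apply_apply]

noncomputable def ω (a : ℕ × ℕ) : ℝ := if a.1 % 2 = 0 then W Q.K (a.1 / 2) else 1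

theorem ω1 (a : ℕ × ℕ) : 1 ≤ Q.ω a := by
  unfold ω; split_ifs
  exacts [by linarith [Q.W40 (a.1 / 2)], le_rfl]

theorem sumb (s : V) : Summable fun a => Q.ω a * ‖s a‖ :=
  summable_of_ne_finset_zero (s := s.support) fun _ h => by simp [Finsupp.notMem_support_iff.1 h]

noncomputable def nw : Seminorm ℂ V := Seminorm.of (fun s => ∑' a, Q.ω a * ‖s a‖)
  (fun u v => by
    rw [← (Q.sumb u).tsum_add (Q.sumb v)]
    refine (Q.sumb _).tsum_le_tsum (fun a => ?_) ((Q.sumb u).add (Q.sumb v))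
    rw [← mul_add]
    exact mul_le_mul_of_nonneg_left (norm_add_le _ _) (by linarith [Q.ω1 a]))
  (fun c u => by rw [← tsum_mul_left]; exact tsum_congr fun a => by simp [mul_left_comm])

noncomputable def ν : Seminorm ℂ V := Q.nw.comp Q.U.symm.toLinearMap

theorem ν_U (s : V) : Q.ν (Q.U s) = ∑' a, Q.ω a * ‖s a‖ := by
  simp only [ν, Seminorm.comp_apply, LinearEquiv.coe_coe, LinearEquiv.symm_apply_apply]; rfl

theorem ν_f (a : ℕ × ℕ) : Q.ν (Q.U (f a)) = Q.ω a := by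
  rw [ν_U, tsum_eq_single a fun b hb => by simp [f, hb]]; simp [f]

theorem ν_ge (s : V) (a : ℕ × ℕ) : Q.ω a * ‖s a‖ ≤ Q.ν (Q.U s) :=
  Q.ν_U s ▸ (Q.sumb s).le_tsum a fun b _ => mul_nonneg (by linarith [Q.ω1 b]) (norm_nonneg _)

theorem opb (T : V →ₗ[ℂ] V) {C : ℝ} (h : ∀ a, Q.ν (T (Q.U (f a))) ≤ C * Q.ω a) (v : V) :
    Q.ν (T v) ≤ C * Q.ν v := by
  obtain ⟨s, rfl⟩ := Q.U.surjective v
  rw [ν_U, tsum_eq_sum (s := s.support) fun _ h => by simp [Finsupp.notMem_support_iff.1 h], mul_sum]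
  conv_lhs => rw [expand s, map_sum, map_sum]
  refine (le_sum_of_subadditive Q.ν (map_zero _).le (map_add_le_add _) _ _).trans
    (sum_le_sum fun a _ => ?_)
  rw [map_smul, map_smul, map_smul_eq_mul, ← mul_assoc, mul_comm]
  exact mul_le_mul_of_nonneg_right (h a) (norm_nonneg _)

noncomputable def P (m : ℕ) : V →ₗ[ℂ] V := Q.U.toLinearMap ∘ₗ Fl m ∘ₗ Q.U.symm.toLinearMap

theorem P_U (m : ℕ) (s : V) : Q.P m (Q.U s) = Q.U (Fl m s) := by simp [P]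

theorem P_id {m : ℕ} {v : V} (h : v ∈ low m) : Q.P m v = v := by simp [P, Fl_id (Q.Us_low h)]

theorem P_le (m : ℕ) (v : V) : Q.ν (Q.P m v) ≤ Q.ν v :=
  (Q.opb _ (C := 1) (fun a => by
    rw [P_U, one_mul]
    rcases lt_or_ge a.1 m with h | h
    · rw [Fl_id (f_low h), ν_f]
    · rw [Fl_f h, map_zero, map_zero]; linarith [Q.ω1 a]) v).trans_eq (one_mul _)

theorem orb {p : ℕ} (h : ∀ j, Q.ν (f (p, j)) ≤ G Q.K (p / 2)) (k j : ℕ) :
    Q.ν ((Q.S ^ k) (f (p, j))) ≤ 16 ^ k * (4 ^ j * G Q.K (p / 2)) := by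
  have G0 := (apply_nonneg _ _).trans (h 0)
  induction k generalizing j with
  | zero => simpa using (h j).trans (le_mul_of_one_le_left G0 (one_le_pow₀ (by norm_num)))
  | succ k ih =>
    obtain ⟨h1, h2, -⟩ := Q.w_bd (p, j)
    rw [pow_succ, Module.End.mul_apply, S_f, map_smul, map_smul_eq_mul, Complex.norm_real,
      Real.norm_of_nonneg h1]
    refine (mul_le_mul_of_nonneg_left (ih (Q.σ (p, j)).2) h1).trans ?_
    have := mul_le_mul_of_nonneg_right h2 (mul_nonneg (pow_nonneg (show (0 : ℝ) ≤ 16 by norm_num) k) G0)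
    rw [pow_succ]; linarith

theorem φ_bd' {i : ℕ} (h : ∀ p < 2 * i, ∀ j, Q.ν (f (p, j)) ≤ G Q.K (p / 2)) (k : ℕ) :
    Q.ν (Q.φ i k) ≤ (i + 1) * Q.K i / 4 ^ k := by
  have : Q.ν ((Q.S ^ k) (Q.y i)) ≤ 16 ^ k * Q.K i := by
    unfold y; split_ifs with c
    · exact (Q.orb (h _ c) k _).trans (by gcongr; exact Q.hK i c)
    · have := Q.K1 i
      rw [map_zero, map_zero]; positivity
  rw [φ, map_smul_eq_mul, norm_div, norm_pow, ← Nat.cast_succ, Complex.norm_natCast]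
  refine (mul_le_mul_of_nonneg_left this (by positivity)).trans_eq ?_
  rw [show ‖(64 : ℂ)‖ = 16 * 4 by norm_num, mul_pow]
  push_cast; field_simp

theorem f_bd (p : ℕ) : ∀ j, Q.ν (f (p, j)) ≤ G Q.K (p / 2) := by
  induction p using Nat.strong_induction_on with
  | _ p ih =>
    intro j
    have h1 := Q.NK (p / 2)
    have h2 := Q.W40 (p / 2)
    rcases Q.cases (p, j) with h | ⟨i, j, h, e⟩
    · have := Q.ν_f (p, j)
      rw [U_apply, h.1, sub_zero] at this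
      rw [this, ω, G]; split_ifs <;> linarith
    · obtain ⟨rfl, rfl⟩ := Prod.mk.inj e
      have e1 := Q.ν_f (2 * i + 1, j)
      have e2 := Q.ν_f (2 * i, j)
      have e3 := Q.φ_bd' (i := i) (fun p hp => ih p (by omega)) (5 * Q.τ i - 1 - j)
      have e4 := div_le_self (zero_le_one.trans (Q.NK i))
        (one_le_pow₀ (n := 5 * Q.τ i - 1 - j) (show (1 : ℝ) ≤ 4 by norm_num))
      rw [U_apply, show Q.Ψ (f (2 * i, j)) = 0 by simp [Ψ, f], sub_zero] at e2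
      rw [U_apply, Q.Ψ_B h] at e1
      have e5 := map_add_le_add Q.ν (f (2 * i + 1, j) - (Q.φ i (5 * Q.τ i - 1 - j) - f (2 * i, j)))
        (Q.φ i (5 * Q.τ i - 1 - j) - f (2 * i, j))
      have e6 := map_sub_le_add Q.ν (Q.φ i (5 * Q.τ i - 1 - j)) (f (2 * i, j))
      rw [sub_add_cancel] at e5
      simp [ω] at e1 e2
      rw [G, show (2 * i + 1) / 2 = i by omega]
      linarith

theorem φ_bd (i k : ℕ) : Q.ν (Q.φ i k) ≤ (i + 1) * Q.K i / 4 ^ k := Q.φ_bd' (fun p _ => Q.f_bd p) k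

end Par

end Pool.Agent.H.MP_b6a3e4_an
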