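import Pool.Agent.H.MP_b6a3e4_an.B

set_option autoImplicit false

namespace Pool.Agent.H.MP_b6a3e4_an

open Filter Topology Finset UniformSpace

namespace Par

variable (Q : Par)

noncomputable def η (i : ℕ) : ℝ := 1 / 256 ^ Q.τ i

theorem small (i : ℕ) : G Q.K i * (128 / 4 ^ (5 * Q.τ i)) ≤ Q.η i := by
  have h1 : (Q.τ i : ℝ) ≤ 4 ^ Q.τ i := by
    exact_mod_cast (Nat.lt_pow_self (show 1 < 4 by norm_num)).le
  rw [η, ← mul_div_assoc, div_le_div_iff₀ (by positivity) (by positivity), pow_mul,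
    show (4 : ℝ) ^ 5 = 4 * 256 by norm_num, mul_pow, one_mul]
  gcongr
  linarith [Q.τG i]

theorem S_φ (i k : ℕ) : Q.S (Q.φ i k) = (64 : ℂ) • Q.φ i (k + 1) := by
  rw [φ, φ, map_smul, smul_smul, pow_succ' Q.S, Module.End.mul_apply]
  congr 1
  rw [pow_succ]
  field_simp

theorem SU (a : ℕ × ℕ) : ∃ s r : V, Q.S (Q.U (f a)) = Q.U s + r ∧
    (∀ m ≤ 2 * (a.1 / 2), Fl m s = 0) ∧ Q.ν (Q.U s) ≤ 65 * Q.ω a ∧ Q.ν r ≤ Q.η (a.1 / 2) := by
  have η0 : ∀ i, 0 ≤ Q.η i := fun i => by unfold η; positivity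
  have nn : ∀ (x : ℝ) (b : ℕ × ℕ), 0 ≤ x → Q.ν (Q.U ((x : ℂ) • f b)) = x * Q.ω b := fun x b h => by
    rw [map_smul, map_smul_eq_mul, ν_f, Complex.norm_real, Real.norm_of_nonneg h]
  have gen : ∀ a : ℕ × ℕ, Q.S (Q.U (f a)) = Q.U ((Q.w a : ℂ) • f (Q.σ a)) → ∃ s r : V,
      Q.S (Q.U (f a)) = Q.U s + r ∧ (∀ m ≤ 2 * (a.1 / 2), Fl m s = 0) ∧ Q.ν (Q.U s) ≤ 65 * Q.ω a ∧
      Q.ν r ≤ Q.η (a.1 / 2) := fun a h =>
    ⟨_, 0, h.trans (add_zero _).symm, fun m hm => by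
      rw [map_smul, Fl_f (a := Q.σ a) (show m ≤ a.1 by omega), smul_zero], by
      rw [nn _ _ (Q.w_bd a).1]
      exact mul_le_mul (by linarith [(Q.w_bd a).2.2]) le_rfl (by linarith [Q.ω1 (Q.σ a)])
        (by norm_num), by rw [map_zero]; exact η0 _⟩
  rcases Q.cases a with h | ⟨i, j, h, rfl⟩
  · exact gen a (by rw [map_smul, U_apply, U_apply, h.1, h.2.1, sub_zero, sub_zero, S_f])
  rcases Nat.eq_zero_or_pos j with rfl | j0
  · have i2 : (2 * i + 1) / 2 = i := by omega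
    have l0 : 5 * Q.τ i - 1 + 1 = 5 * Q.τ i := by omega
    have cb : ∀ p, p / 2 = i → Q.c p ≤ 64 / 4 ^ (5 * Q.τ i) := fun p hp => by
      have := (Q.c_bd p).2
      rw [L, hp] at this
      rw [le_div_iff₀ (by positivity), ← l0, pow_succ]; linarith
    have c1 := cb (2 * i) (by omega)
    have c2 := cb (2 * i + 1) i2
    have c3 := (Q.c_bd (2 * i)).1
    have c4 := (Q.c_bd (2 * i + 1)).1
    have sm := Q.small i
    have η1 : Q.η i ≤ 1 := div_le_self zero_le_one (one_le_pow₀ (by norm_num))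
    have k1 := Q.NK i
    have k2 := Q.W40 i
    have k3 : (0 : ℝ) < 64 / 4 ^ (5 * Q.τ i) := by positivity
    have k4 : (128 : ℝ) / 4 ^ (5 * Q.τ i) = 2 * (64 / 4 ^ (5 * Q.τ i)) := by ring
    rw [k4, G] at sm
    refine ⟨(Q.c (2 * i + 1) : ℂ) • f (2 * i + 1, 5 * Q.τ i - 1) + ((Q.c (2 * i) : ℂ) •
      f (2 * i, 5 * Q.τ i - 1) - (Q.c (2 * i + 1) : ℂ) • f (2 * i, 5 * Q.τ i - 1)),
      (Q.c (2 * i + 1) : ℂ) • Q.φ i 0 - (64 : ℂ) • Q.φ i (5 * Q.τ i), ?_, fun m hm => ?_, ?_, ?_⟩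
    · simp only [U_apply, map_add, map_sub, map_smul, Q.Ψ_B h,
        Q.Ψ_B (show 5 * Q.τ i - 1 < 5 * Q.τ i by omega), S_f, S_φ, Nat.sub_zero, l0, Nat.sub_self,
        show Q.Ψ (f (2 * i, 5 * Q.τ i - 1)) = 0 by simp [Ψ, f], σ, w, if_true, L_A, L_B]
      module
    · simp only [i2] at hm
      simp only [map_add, map_sub, map_smul, Fl_f (a := (2 * i, _)) hm,
        Fl_f (a := (2 * i + 1, _)) (hm.trans (Nat.le_succ _)), smul_zero, sub_zero, add_zero]
    · rw [map_add, map_sub]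
      refine (map_add_le_add _ _ _).trans ((add_le_add le_rfl (map_sub_le_add _ _ _)).trans ?_)
      rw [nn _ _ c3, nn _ _ c4, nn _ _ c4]
      simp only [ω, Nat.mul_mod_right, Nat.mul_add_mod, if_true, Nat.mul_div_cancel_left i two_pos]
      norm_num
      nlinarith
    · refine (map_sub_le_add _ _ _).trans ?_
      have b1 := Q.φ_bd i 0
      have b2 := Q.φ_bd i (5 * Q.τ i)
      rw [map_smul_eq_mul, map_smul_eq_mul, Complex.norm_real, Real.norm_of_nonneg c4, i2,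
        show ‖(64 : ℂ)‖ = 64 by norm_num]
      rw [pow_zero, div_one] at b1
      have b3 := mul_le_mul c2 b1 (apply_nonneg _ _) k3.le
      have b4 : 64 * ((i + 1) * Q.K i / 4 ^ (5 * Q.τ i)) = 64 / 4 ^ (5 * Q.τ i) * ((i + 1) * Q.K i) := by
        ring
      nlinarith
  · refine gen _ ?_
    simp only [U_apply, map_sub, map_smul, Q.Ψ_B h, Q.Ψ_B (show j - 1 < 5 * Q.τ i by omega), S_f, S_φ,
      σ, w, L_A, L_B, j0.ne', h, if_true, if_false,
      show 5 * Q.τ i - 1 - j + 1 = 5 * Q.τ i - 1 - (j - 1) by omega]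
    push_cast
    module

theorem S_bd (v : V) : Q.ν (Q.S v) ≤ 128 * Q.ν v := Q.opb _ (fun a => by
  obtain ⟨s, r, h1, -, h2, h3⟩ := Q.SU a
  have η1 : Q.η (a.1 / 2) ≤ 1 := div_le_self zero_le_one (one_le_pow₀ (by norm_num))
  rw [h1]
  linarith [map_add_le_add Q.ν (Q.U s) r, Q.ω1 a]) v

theorem Sn_bd (n : ℕ) (v : V) : Q.ν ((Q.S ^ n) v) ≤ 128 ^ n * Q.ν v := by
  induction n with
  | zero => simp
  | succ n ih => rw [pow_succ', pow_succ', Module.End.mul_apply]; linarith [Q.S_bd ((Q.S ^ n) v)]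

theorem leak1 (N : ℕ) (v : V) :
    Q.ν (Q.P (2 * N) (Q.S v) - Q.S (Q.P (2 * N) v)) ≤ Q.η N * Q.ν v :=
  Q.opb (Q.P (2 * N) ∘ₗ Q.S - Q.S ∘ₗ Q.P (2 * N)) (fun a => by
    have η0 : 0 ≤ Q.η N := by unfold η; positivity
    simp only [LinearMap.sub_apply, LinearMap.comp_apply, P_U]
    rcases lt_or_ge a.1 (2 * N) with h | h
    · have := Q.S_low 1 (Q.U_low (f_low h))
      rw [pow_one] at this
      rw [Fl_id (f_low h), Q.P_id this, sub_self, map_zero]
      exact mul_nonneg η0 (by linarith [Q.ω1 a])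
    · obtain ⟨s, r, h1, h2, -, h3⟩ := Q.SU a
      rw [Fl_f h, h1, map_add, P_U, h2 _ (by omega)]
      simp only [map_zero, zero_add, sub_zero]
      refine (Q.P_le _ _).trans (h3.trans (le_trans ?_ (le_mul_of_one_le_right η0 (Q.ω1 a))))
      exact one_div_le_one_div_of_le (by positivity)
        (pow_le_pow_right₀ (by norm_num) (Q.mono.monotone (by omega)))) v

theorem leak (N n : ℕ) (v : V) :
    Q.ν (Q.P (2 * N) ((Q.S ^ n) v) - (Q.S ^ n) (Q.P (2 * N) v)) ≤ 256 ^ n * Q.η N * Q.ν v := by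
  have η0 : 0 ≤ Q.η N := by unfold η; positivity
  induction n with
  | zero => simpa using mul_nonneg η0 (apply_nonneg _ _)
  | succ n ih =>
    have h1 := (Q.leak1 N ((Q.S ^ n) v)).trans (mul_le_mul_of_nonneg_left (Q.Sn_bd n v) η0)
    have h2 := Q.S_bd (Q.P (2 * N) ((Q.S ^ n) v) - (Q.S ^ n) (Q.P (2 * N) v))
    have h3 := map_add_le_add Q.ν (Q.P (2 * N) (Q.S ((Q.S ^ n) v)) - Q.S (Q.P (2 * N) ((Q.S ^ n) v)))
      (Q.S (Q.P (2 * N) ((Q.S ^ n) v) - (Q.S ^ n) (Q.P (2 * N) v)))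
    rw [map_sub Q.S, sub_add_sub_cancel] at h3
    rw [map_sub] at h2
    have h4 : (128 : ℝ) ^ n * (Q.η N * Q.ν v) ≤ 256 ^ n * (Q.η N * Q.ν v) := by
      gcongr; norm_num
    have h5 : 0 ≤ (256 : ℝ) ^ n * (Q.η N * Q.ν v) := by positivity
    rw [pow_succ' Q.S, pow_succ (256 : ℝ), Module.End.mul_apply, Module.End.mul_apply]
    linarith

def Act (i : ℕ) (z : V) (R : ℝ) : Prop := (∀ j < 5 * Q.τ i, ‖z (2 * i + 1, j)‖ ≤ 2 * R) ∧
  ∃ j < 5 * Q.τ i, 2 / W Q.K i * 2 ^ (5 * Q.τ i - 1 - j) * R ≤ ‖z (2 * i + 1, j)‖ ∧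
    W Q.K i * ‖z (2 * i, j) - z (2 * i + 1, j)‖ ≤ R

noncomputable def e0 : ℕ × ℕ := (1, 5 * Q.τ 0 - 1)

theorem top {i : ℕ} {s : V} (hs : s ∈ low (2 * i + 2)) {j : ℕ} (hj : j < 5 * Q.τ i) :
    Q.U s (2 * i + 1, j) = s (2 * i + 1, j) ∧ Q.U s (2 * i, j) = s (2 * i, j) + s (2 * i + 1, j) := by
  have h1 := low_ind Q.Ψ _ (fun a (ha : a.1 < 2 * i + 2) =>
    low_mono (show a.1 ≤ 2 * i + 1 by omega) (Q.Ψ_low a)) hs (2 * i + 1, j) le_rfl
  have h2 := low_ind (Finsupp.lapply (2 * i, j) ∘ₗ Q.Ψ + Finsupp.lapply (2 * i + 1, j)) ⊥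
    (fun a (ha : a.1 < 2 * i + 2) => by
      simp only [LinearMap.add_apply, LinearMap.comp_apply, Finsupp.lapply_apply, Submodule.mem_bot]
      rcases Q.cases a with h | ⟨i', j', h, rfl⟩
      · rw [h.1, f, Finsupp.single_eq_of_ne (by rintro rfl; have := h.2.2 i rfl; omega)]; simp
      · rw [Q.Ψ_B h, Finsupp.sub_apply, Q.φ_low _ _ (2 * i, j) (by simp at ha ⊢; omega)]
        simp [f, Finsupp.single_apply]) hs
  simp only [LinearMap.add_apply, LinearMap.comp_apply, Finsupp.lapply_apply, Submodule.mem_bot] at h2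
  simp only [U_apply, Finsupp.sub_apply, h1, sub_zero, true_and]
  linear_combination -h2

theorem cut {i : ℕ} {s : V} (hs : s ∈ low (2 * i + 2)) : Fl (2 * i) (Q.U s) = Q.U (Fl (2 * i) s) -
    ∑ j ∈ range (5 * Q.τ i), s (2 * i + 1, j) • Q.φ i (5 * Q.τ i - 1 - j) := by
  have := low_ind (Fl (2 * i) ∘ₗ Q.U.toLinearMap - Q.U.toLinearMap ∘ₗ Fl (2 * i) +
    ∑ j ∈ range (5 * Q.τ i), (Finsupp.lapply (2 * i + 1, j)).smulRight (Q.φ i (5 * Q.τ i - 1 - j))) ⊥
    (fun a (ha : a.1 < 2 * i + 2) => by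
      simp only [LinearMap.add_apply, LinearMap.sub_apply, LinearMap.comp_apply, LinearMap.sum_apply,
        LinearMap.smulRight_apply, Finsupp.lapply_apply, Submodule.mem_bot, LinearEquiv.coe_coe]
      rcases lt_or_ge a.1 (2 * i) with c | c
      · rw [Fl_id (f_low c), Fl_id (Q.U_low (f_low c)), sub_self, zero_add]
        exact sum_eq_zero fun j _ => by rw [f_low c _ (Nat.le_succ _), zero_smul]
      rw [Fl_f c, map_zero, sub_zero, U_apply, map_sub, Fl_f c]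
      rcases Q.cases a with h | ⟨i', j', h, rfl⟩
      · rw [h.1, map_zero, sub_zero, zero_add]
        exact sum_eq_zero fun j hj => by
          rw [f, Finsupp.single_eq_of_ne (by
            rintro rfl; have := h.2.2 i rfl; have := mem_range.1 hj; omega), zero_smul]
      · obtain rfl : i' = i := by simp at ha c; omega
        rw [Q.Ψ_B h, map_sub, Fl_id (Q.φ_low _ _), Fl_f (a := (2 * i', j')) le_rfl]
        simp [f, Finsupp.single_apply, h]) hs
  simp only [LinearMap.add_apply, LinearMap.sub_apply, LinearMap.comp_apply, LinearMap.sum_apply,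
    LinearMap.smulRight_apply, Finsupp.lapply_apply, Submodule.mem_bot, LinearEquiv.coe_coe] at this
  rw [eq_sub_iff_add_eq, ← sub_eq_zero, ← this]; abel

theorem peel {R : ℝ} (R0 : 0 < R) (i : ℕ) : ∀ z ∈ low (2 * i + 2),
    Q.ν (z - (R : ℂ) • Q.U (f Q.e0)) ≤ (1 / 25 + 1 / 10 / 2 ^ i) * R → ∃ m ≤ i, Q.Act m z R := by
  have bd : ∀ i, ∀ s ∈ low (2 * i + 2), Q.ν (Q.U s - (R : ℂ) • Q.U (f Q.e0)) ≤
      (1 / 25 + 1 / 10 / 2 ^ i) * R → ∀ j < 5 * Q.τ i, ‖Q.U s (2 * i + 1, j)‖ ≤ 2 * R ∧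
        ‖Q.U s (2 * i + 1, j) - R * f Q.e0 (2 * i + 1, j)‖ ≤ R / 2 ∧
        W Q.K i * ‖Q.U s (2 * i, j) - Q.U s (2 * i + 1, j)‖ ≤ R := fun i s hs h j hj => by
    have h0 : (1 : ℝ) / 10 / 2 ^ i ≤ 1 / 10 := div_le_self (by norm_num) (one_le_pow₀ one_le_two)
    rw [← map_smul, ← map_sub] at h
    have h1 := (Q.ν_ge _ (2 * i + 1, j)).trans h
    have h2 := (Q.ν_ge _ (2 * i, j)).trans h
    have h3 : f Q.e0 (2 * i, j) = 0 := Finsupp.single_eq_of_ne (by simp [e0])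
    have h4 : ‖(R : ℂ) * f Q.e0 (2 * i + 1, j)‖ ≤ R := by
      rw [f, Finsupp.single_apply]; split_ifs <;> simp [abs_of_pos R0, R0.le]
    simp [ω, h3] at h1 h2
    rw [(Q.top hs hj).1, (Q.top hs hj).2, add_sub_cancel_right]
    have := norm_sub_norm_le (s (2 * i + 1, j)) (R * f Q.e0 (2 * i + 1, j))
    norm_num at h0
    exact ⟨by nlinarith, by nlinarith, by nlinarith⟩
  induction i with
  | zero =>
    intro z hz h
    obtain ⟨s, rfl⟩ := Q.U.surjective z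
    have hs := Q.Us_low hz
    rw [LinearEquiv.symm_apply_apply] at hs
    have l0 : 5 * Q.τ 0 - 1 < 5 * Q.τ 0 := by have := Q.τ0 0; omega
    obtain ⟨-, h1, h2⟩ := bd 0 s hs h _ l0
    refine ⟨0, le_rfl, fun j hj => (bd 0 s hs h j hj).1, _, l0, ?_, h2⟩
    have h3 := norm_sub_norm_le (R : ℂ) (Q.U s (2 * 0 + 1, 5 * Q.τ 0 - 1))
    rw [show f Q.e0 (2 * 0 + 1, 5 * Q.τ 0 - 1) = 1 from Finsupp.single_eq_same, mul_one,
      norm_sub_rev] at h1
    rw [Complex.norm_real, Real.norm_of_nonneg R0.le] at h3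
    have h4 : 2 / W Q.K 0 ≤ 1 / 2 := by
      rw [div_le_div_iff₀ (by linarith [Q.W40 0]) two_pos]; linarith [Q.W40 0]
    rw [Nat.sub_self, pow_zero, mul_one]
    nlinarith
  | succ i ih =>
    intro z hz h
    obtain ⟨s, rfl⟩ := Q.U.surjective z
    have hs := Q.Us_low hz
    rw [LinearEquiv.symm_apply_apply] at hs
    by_cases c : ∃ j < 5 * Q.τ (i + 1), 2 / W Q.K (i + 1) * 2 ^ (5 * Q.τ (i + 1) - 1 - j) * R ≤
        ‖Q.U s (2 * (i + 1) + 1, j)‖
    · obtain ⟨j, hj, c⟩ := c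
      exact ⟨i + 1, le_rfl, fun j hj => (bd _ s hs h j hj).1, j, hj, c, (bd _ s hs h j hj).2.2⟩
    push Not at c
    have h1 : Q.ν (∑ j ∈ range (5 * Q.τ (i + 1)), s (2 * (i + 1) + 1, j) •
        Q.φ (i + 1) (5 * Q.τ (i + 1) - 1 - j)) ≤ 1 / 10 / 2 ^ (i + 1) * R := by
      refine (le_sum_of_subadditive Q.ν (map_zero _).le (map_add_le_add _) _ _).trans
        ((sum_le_sum (g := fun j => 1 / 20 / 2 ^ (i + 1) * R * (1 / 2) ^ (5 * Q.τ (i + 1) - 1 - j))
          fun j hj => ?_).trans ?_)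
      · have W0 : 0 < W Q.K (i + 1) := by linarith [Q.W40 (i + 1)]
        rw [map_smul_eq_mul, ← (Q.top hs (mem_range.1 hj)).1]
        refine (mul_le_mul (c j (mem_range.1 hj)).le (Q.φ_bd _ _) (apply_nonneg _ _)
          (by positivity)).trans_eq ?_
        have := Q.K1 (i + 1)
        rw [W, show (4 : ℝ) = 2 * 2 by norm_num, mul_pow, one_div_pow]
        field_simp
        norm_num
      · rw [← mul_sum, sum_range_reflect fun j => (1 / 2 : ℝ) ^ j]
        refine (mul_le_mul_of_nonneg_left (sum_geometric_two_le _) (by positivity)).trans_eq ?_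
        ring
    obtain ⟨m, hm, ha⟩ := ih (Fl (2 * i + 2) (Q.U s)) (Fl_low _ _) (by
      have h2 := (Q.P_le (2 * (i + 1)) _).trans h
      rw [map_sub, map_smul, P_U, P_U, Fl_id (f_low (a := Q.e0) (by simp [e0]; omega))] at h2
      rw [show 2 * i + 2 = 2 * (i + 1) by ring, Q.cut hs, sub_right_comm]
      refine (map_sub_le_add _ _ _).trans ((add_le_add h2 h1).trans_eq ?_)
      rw [pow_succ]; field_simp; ring)
    refine ⟨m, by omega, ?_⟩
    simpa only [Act, Fl_apply, show 2 * m + 1 < 2 * i + 2 by omega, show 2 * m < 2 * i + 2 by omega,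
      if_true] using ha

theorem unroll (u : V) (p : ℕ) {j : ℕ} (hj : j < Q.L p) (n : ℕ) :
    (Q.S ^ (n + j)) u (p, 0) = 64 ^ j * (Q.S ^ n) u (p, j) := by
  induction j generalizing n with
  | zero => simp
  | succ j ih =>
    have := Q.S_apply ((Q.S ^ n) u) (p, j + 1)
    simp only [σ, w, Nat.succ_ne_zero, hj, if_true, if_false, Nat.add_sub_cancel] at this
    rw [← add_assoc, add_right_comm, ih (by omega), pow_succ' Q.S, Module.End.mul_apply, this]
    push_cast; ring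

theorem per (u : V) (p s : ℕ) : (Q.S ^ (s + Q.L p)) u (p, 0) = μ p ^ Q.L p * (Q.S ^ s) u (p, 0) := by
  have h := Q.L5 p
  have := Q.S_apply ((Q.S ^ s) u) (p, 0)
  simp only [σ, w, if_true, c] at this
  rw [show s + Q.L p = s + 1 + (Q.L p - 1) by omega, Q.unroll u p (by omega), pow_succ' Q.S,
    Module.End.mul_apply, this]
  push_cast; field_simp

theorem hits (v : V) (N : ℕ) (H : Finset ℕ) (hv : 50 * Q.ν v ≤ 3 ^ Q.τ N)
    (h : ∀ n ∈ H, Q.τ N ≤ n ∧ n < Q.τ (N + 1) ∧ ∃ r : ℝ, 3 ≤ r ∧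
      Q.ν ((Q.S ^ n) v - ((r ^ n : ℝ) : ℂ) • Q.U (f Q.e0)) ≤ r ^ n / 50) :
    H.card * 2 ^ (N + 5) ≤ Q.τ N := by
  classical
  refine le_trans (Nat.mul_le_mul_right _ ?_) (Q.τW N)
  set u := Q.P (2 * (N + 1)) v
  have hu : u ∈ low (2 * N + 2) := Q.U_low (Fl_low _ _)
  refine (card_le_card (t := (range (N + 1)).biUnion fun i => H.filter fun n =>
    ∃ R, 0 < R ∧ Q.Act i ((Q.S ^ n) u) R) fun n hn => ?_).trans
    (card_biUnion_le.trans (sum_le_sum fun i _ => ?_))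
  · obtain ⟨h1, h2, r, h3, h4⟩ := h n hn
    have R0 : 0 < r ^ n := by positivity
    obtain ⟨m, hm, ha⟩ := Q.peel R0 N _ (Q.S_low n hu) (by
      have h5 := (Q.P_le (2 * (N + 1)) _).trans h4
      rw [map_sub, map_smul, P_U, Fl_id (f_low (a := Q.e0) (by simp [e0]; omega))] at h5
      have h6 := Q.leak (N + 1) n v
      have h7 : 256 ^ n * Q.η (N + 1) ≤ 1 := by
        rw [η, mul_one_div, div_le_one (by positivity)]
        exact pow_le_pow_right₀ (by norm_num) h2.le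
      have h8 := mul_le_of_le_one_left (apply_nonneg Q.ν v) h7
      have h9 : (3 : ℝ) ^ Q.τ N ≤ r ^ n :=
        (pow_le_pow_right₀ (by norm_num) h1).trans (pow_le_pow_left₀ (by norm_num) h3 n)
      have h10 := map_sub_le_add Q.ν (Q.P (2 * (N + 1)) ((Q.S ^ n) v) - ((r ^ n : ℝ) : ℂ) • Q.U (f Q.e0))
        (Q.P (2 * (N + 1)) ((Q.S ^ n) v) - (Q.S ^ n) u)
      rw [sub_sub_sub_cancel_left] at h10
      have : 0 ≤ 1 / 10 / 2 ^ N * r ^ n := by positivity
      linarith)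
    exact mem_biUnion.2 ⟨m, mem_range.2 (by omega), mem_filter.2 ⟨hn, _, R0, ha⟩⟩
  · have l5 := Q.L5 (2 * i)
    refine count (A := fun s => (Q.S ^ s) u (2 * i, 0)) (B := fun s => (Q.S ^ s) u (2 * i + 1, 0))
      (l := 5 * Q.τ i) (μ := μ (2 * i)) (W := W Q.K i) (by rw [L_A] at l5; omega) (μ_bd _).1 (μ_A i).1
      (fun s => by simpa only [L_A] using Q.per u (2 * i) s)
      (fun s => by simpa [L_B, (μ_A i).2] using Q.per u (2 * i + 1) s) (by linarith [Q.W40 i])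
      ((Nat.le_ceil _).trans (by exact_mod_cast Nat.lt_two_pow_self.le)) _ fun n hn => ?_
    obtain ⟨-, R, R0, a1, j, hj, a2, a3⟩ := mem_filter.1 hn
    have n64 : ∀ j : ℕ, ‖(64 : ℂ) ^ j‖ = 64 ^ j := fun j => by simp
    refine ⟨R, R0, fun j hj => ?_, j, hj, ?_, ?_⟩
    · rw [Q.unroll u _ (by rwa [L_B]), norm_mul, n64]; gcongr; exact a1 j hj
    · rw [Q.unroll u _ (by rwa [L_B]), norm_mul, n64]; gcongr
    · rw [Q.unroll u _ (by rwa [L_A]), Q.unroll u _ (by rwa [L_B]), ← mul_sub, norm_mul, n64,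
        mul_left_comm]
      gcongr

theorem eig (p : ℕ) :
    f (p, Q.L p - 1) ∈ Submodule.span ℂ {x | ∃ z : ℂ, ‖z‖ = μ p ∧ Q.S x = z • x} := by
  have h := Q.L5 p
  refine roots Q.S (l := Q.L p) (by omega) (by linarith [(μ_bd p).1]) ?_
  have h1 : ∀ k ≤ Q.L p - 1, (Q.S ^ k) (f (p, Q.L p - 1)) = (64 : ℂ) ^ k • f (p, Q.L p - 1 - k) :=
    fun k hk => by
    induction k with
    | zero => simp
    | succ k ih =>
      rw [pow_succ', Module.End.mul_apply, ih (by omega), map_smul, S_f, smul_smul, pow_succ]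
      simp only [σ, w, show Q.L p - 1 - k ≠ 0 by omega, show Q.L p - 1 - k < Q.L p by omega,
        if_true, if_false]
      rw [Nat.sub_sub _ k 1]
      rfl
  conv_lhs => rw [show Q.S ^ Q.L p = Q.S * Q.S ^ (Q.L p - 1) by
    rw [← pow_succ']; congr 1; omega]
  rw [Module.End.mul_apply, h1 _ le_rfl, map_smul, S_f, smul_smul, Nat.sub_self]
  simp only [σ, w, if_true, c]
  congr 1
  push_cast; field_simp

end Par

theorem par : ∃ Q : Par, ∀ i, Q.t i = (i / 2).unpair.1.unpair := by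
  let t : ℕ → ℕ × ℕ := fun i => (i / 2).unpair.1.unpair
  obtain ⟨K, hK⟩ := MP_c74059_gt.wf_choice (I := ℕ) (A := ℝ)
    (fun i K a => 1 ≤ a ∧ ((t i).1 < 2 * i → 4 ^ (t i).2 * G K ((t i).1 / 2) ≤ a))
    (fun i K K' a h ⟨h1, h2⟩ => ⟨h1, fun c => by
      rw [G, W, ← h _ (by omega)]; exact h2 c⟩)
    fun i K _ => ⟨_, le_max_left _ _, fun _ => le_max_right _ _⟩
  let d : ℕ → ℕ := fun i => (2 * ⌈W K i⌉₊ + 1) ^ 2 + ⌈128 * G K i⌉₊
  have d0 : ∀ i, 0 < d i := fun i => by positivity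
  have s0 : ∀ N, d N ≤ ∑ i ∈ range (N + 1), d i := fun N =>
    single_le_sum (f := d) (fun _ _ => Nat.zero_le _) (self_mem_range_succ N)
  refine ⟨⟨fun N => (∑ i ∈ range (N + 1), d i) * 2 ^ (N + 5), K, t, fun i => (hK i).1,
    fun i => (hK i).2, strictMono_nat_of_lt_succ fun N => ?_,
    fun N => Nat.mul_pos ((d0 N).trans_le (s0 N)) (by positivity), fun N => ?_, fun N =>
      Nat.mul_le_mul_right _ (sum_le_sum fun i _ => Nat.le_add_right _ _)⟩, fun _ => rfl⟩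
  · refine Nat.mul_lt_mul_of_lt_of_le ?_ (Nat.pow_le_pow_right two_pos (by omega)) (by positivity)
    rw [sum_range_succ _ (N + 1)]; linarith [d0 (N + 1)]
  · exact (Nat.le_ceil _).trans (Nat.cast_le.2 (((Nat.le_add_left _ _).trans (s0 N)).trans
      (Nat.le_mul_of_pos_right _ (by positivity))))

theorem main : ∃ (X : Type) (_ : NormedAddCommGroup X) (_ : NormedSpace ℂ X) (T : X →L[ℂ] X),
    CompleteSpace X ∧ TopologicalSpace.SeparableSpace X ∧
    (∀ p : ℝ → Prop, (∀ r ≤ 2, p r) ∨ (∀ r, 8 ≤ r → p r) →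
      Dense (Submodule.span ℂ {x : X | ∃ z : ℂ, p ‖z‖ ∧ T x = z • x} : Set X)) ∧
    ∀ x, ∃ r ∈ Set.Icc (3 : ℝ) 5, ¬ Dense (Set.range fun n : ℕ => (((r⁻¹ : ℝ) : ℂ) • T) ^ n <| x) := by
  obtain ⟨Q, hQ⟩ := par
  let _ : SeminormedAddCommGroup V := Q.ν.toSeminormedAddCommGroup
  let _ : NormedSpace ℂ V := ⟨fun a v => (map_smul_eq_mul Q.ν a v).le⟩
  let S : V →L[ℂ] V := Q.S.mkContinuous 128 Q.S_bd
  let ι : V →ₗᵢ[ℂ] Completion V := Completion.toComplₗᵢ
  have hι : DenseRange ι := Completion.denseRange_coe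
  have hT : ∀ v, S.completion (ι v) = ι (S v) := S.completion_apply_coe
  have sp : Submodule.span ℂ (Set.range f) = ⊤ := eq_top_iff.2 fun v _ => by
    rw [expand v]
    exact Submodule.sum_mem _ fun a _ => Submodule.smul_mem _ _ (Submodule.subset_span ⟨a, rfl⟩)
  have : TopologicalSpace.SeparableSpace V := by
    have := (Set.countable_range f).isSeparable.span (R := ℂ)
    rwa [sp, Submodule.top_coe, TopologicalSpace.isSeparable_univ_iff] at this
  refine ⟨Completion V, inferInstance, inferInstance, S.completion, inferInstance, inferInstance,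
    fun p hp => ?_, nocommon ι hι S _ hT (e := Q.U (f Q.e0)) ((Q.ν_f _).trans (by simp [Par.ω, Par.e0]))
      Q.mono fun v N H h1 h2 => Q.hits v N H h1 fun n hn => ?_⟩
  · set M := Submodule.span ℂ {x : Completion V | ∃ z : ℂ, p ‖z‖ ∧ S.completion x = z • x}
    have h1 : ∀ q, p (μ q) → ι (f (q, Q.L q - 1)) ∈ M := fun q hq =>
      (Submodule.span_le (p := M.comap ι.toLinearMap)).2 (by
        rintro x ⟨z, h1, h2⟩
        exact Submodule.subset_span
          ⟨z, h1 ▸ hq, (hT x).trans ((congrArg ι h2).trans (map_smul ι z x))⟩)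
        (Q.eig q)
    obtain ⟨b, b2, hb⟩ : ∃ b < 2, ∀ k, p (μ (2 * (2 * k + b))) ∧ p (μ (2 * (2 * k + b) + 1)) := by
      rcases hp with h | h
      · exact ⟨0, two_pos, fun k => ⟨h _ (by unfold μ; split_ifs <;> first | omega | norm_num),
          h _ (by unfold μ; split_ifs <;> first | omega | norm_num)⟩⟩
      · exact ⟨1, one_lt_two, fun k => ⟨h _ (by unfold μ; split_ifs <;> first | omega | norm_num),
          h _ (by unfold μ; split_ifs <;> first | omega | norm_num)⟩⟩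
    have h2 : ∀ a, ι (f a) ∈ M.topologicalClosure := fun a => Metric.mem_closure_iff.2 fun ε hε => by
      obtain ⟨n, n1, n2⟩ := ((eventually_gt_atTop a.1).and
        ((tendsto_one_div_add_atTop_nhds_zero_nat (𝕜 := ℝ)).eventually (gt_mem_nhds hε))).exists
      have n3 := Nat.right_le_pair (Nat.pair a.1 a.2) n
      obtain ⟨p1, p2⟩ := hb (Nat.pair (Nat.pair a.1 a.2) n)
      have e1 := hQ (2 * Nat.pair (Nat.pair a.1 a.2) n + b)
      rw [show (2 * Nat.pair (Nat.pair a.1 a.2) n + b) / 2 = Nat.pair (Nat.pair a.1 a.2) n by omega,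
        Nat.unpair_pair, Nat.unpair_pair] at e1
      have n4 : n ≤ 2 * Nat.pair (Nat.pair a.1 a.2) n + b := by omega
      generalize 2 * Nat.pair (Nat.pair a.1 a.2) n + b = i at *
      refine ⟨_, M.smul_mem (i + 1 : ℂ)⁻¹ (M.add_mem (h1 _ p1) (h1 _ p2)), ?_⟩
      have e2 := Q.ν_f (2 * i + 1, 5 * Q.τ i - 1)
      rw [Q.U_apply, Q.Ψ_B (by have := Q.τ0 i; omega), Nat.sub_self, Par.φ, Par.y, e1,
        if_pos (by omega)] at e2
      have i0 : (i + 1 : ℂ) ≠ 0 := Nat.cast_add_one_ne_zero i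
      rw [← map_add, ← map_smul, ι.dist_map, dist_comm, dist_eq_norm, Q.L_A, Q.L_B,
        ← inv_smul_smul₀ i0 (f a), ← smul_sub, norm_smul, norm_inv, ← Nat.cast_succ,
        Complex.norm_natCast]
      refine lt_of_le_of_lt ?_ n2
      rw [show ‖f (2 * i, 5 * Q.τ i - 1) + f (2 * i + 1, 5 * Q.τ i - 1) - (i.succ : ℂ) • f a‖ = 1 from
        Eq.trans (congrArg Q.ν (by simp; abel)) (e2.trans (by simp [Par.ω])), mul_one, one_div]
      push_cast
      gcongr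
    refine fun x => hι.induction_on x isClosed_closure fun v => ?_
    exact (Submodule.span_le (p := M.topologicalClosure.comap ι.toLinearMap)).2
      (Set.range_subset_iff.2 h2) (sp ▸ Submodule.mem_top : v ∈ _)
  · have : ∀ n : ℕ, (S ^ n) v = (Q.S ^ n) v := fun n => by
      induction n with
      | zero => rfl
      | succ n ih => rw [pow_succ', pow_succ', Module.End.mul_apply, ← ih]; rfl
    rw [← this]
    exact h2 n hn

end Pool.Agent.H.MP_b6a3e4_an
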